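import Pool.Agent.Strip051.LC.Exact.MolMo

/-! # The modulus inequality near an aligned corner

The two short arcs have the lengths `ρ a h0` and `ρ b h0`, `a + b = 1`; the excess and the defect
`A1 + A2 - A3` are multiples of `ρ`.  Four linear inequalities are sufficient. -/

namespace Pool.Agent.Strip051.LC.XC

open Pool.Agent.StripNear Pool.Agent.StripSquare Pool.Agent.Strip051.Sweep
open Pool.Agent.Strip051.LC.Line

/-- The mean of the positive part between two values of opposite sign. -/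
theorem phi_opp {x q : ℝ} (hx : 0 ≤ x) (hx1 : x ≤ 1) (hq : 0 ≤ q) :
    Line.phi (-((1 - x) * q)) (x * q) = x ^ 2 * q / 2 := by
  have h1 : -((1 - x) * q) ≤ 0 := by nlinarith
  have h2 : 0 ≤ x * q := by positivity
  rw [phi_neg_pos h1 h2]
  rcases hq.eq_or_lt with h | h
  · rw [← h]
    simp
  · have : 2 * (x * q - -((1 - x) * q)) = 2 * q := by ring
    rw [this]
    field_simp

/-- The sufficient inequalities: `K = κ h0`, `x = s / h0`, `om = a A2 - b A1`, `D = (1 - ρ) d`. -/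
structure Four (K x ρ a om D e : ℝ) : Prop where
  ip : K * ((1 - x) * (om + D * (x - ρ * (a - x)))) ≤ 2 * e
  im : K * ((1 - x) * (om - D * (x - ρ * (1 - a - x)))) ≤ 2 * e
  jp : K * (x * (-om + D * (1 - x + ρ * (a - x)))) ≤ 2 * e
  jm : K * (x * (-om - D * (1 - x + ρ * (1 - a - x)))) ≤ 2 * e

/-- The estimate for one sign of the defect. -/
theorem cone_aux {K x ρ a om D e : ℝ} (hK : 0 ≤ K) (hρ : 0 ≤ ρ)
    (h1 : K * ((1 - x) * (om + D * (x - ρ * (a - x)))) ≤ 2 * e)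
    (h2 : K * (x * (-om + D * (1 - x + ρ * (a - x)))) ≤ 2 * e) {F : ℝ}
    (hF : F ≤ ρ / 2 * (max (om - ρ * D * (a - x)) 0 - x * om + D * x * (1 - x + ρ * (a - x)))) :
    K * F ≤ ρ * e := by
  refine (mul_le_mul_of_nonneg_left hF hK).trans ?_
  rcases le_total 0 (om - ρ * D * (a - x)) with h | h
  · rw [max_eq_left h]
    have := mul_le_mul_of_nonneg_left h1 hρ
    linarith
  · rw [max_eq_right h]
    have := mul_le_mul_of_nonneg_left h2 hρ
    linarith

/-- **The modulus inequality in cone form.** -/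
theorem moN_cone {κ s ex l1 l2 A1 A2 A3 x ρ a d e : ℝ} (hκ : 0 ≤ κ) (hx : 0 ≤ x) (hx1 : x ≤ 1)
    (hs : s = x * h0) (hρ : 0 ≤ ρ) (hρ1 : ρ ≤ 1) (ha : 0 ≤ a) (ha1 : a ≤ 1)
    (h1 : l1 = ρ * a * h0) (h2 : l2 = ρ * (1 - a) * h0) (he : ρ * e ≤ ex)
    (hd : A1 + A2 - A3 = ρ * d)
    (H : Four (κ * h0) x ρ a (a * A2 - (1 - a) * A1) ((1 - ρ) * d) e) :
    MoN κ s ex l1 l2 A1 A2 A3 := by
  have hp := h0_pos
  have hA3 : A3 = A1 + A2 - ρ * d := by linarith
  obtain ⟨D, hD⟩ : ∃ D, D = (1 - ρ) * d := ⟨_, rfl⟩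
  obtain ⟨om, hom⟩ : ∃ om, om = a * A2 - (1 - a) * A1 := ⟨_, rfl⟩
  rw [← hD, ← hom] at H
  have hK : 0 ≤ κ * h0 := by positivity
  -- the potentials
  have w1 : (A1 * (h0 - l1) + A2 * (h0 - 2 * l1 - l2) - A3 * (h0 - l1 - l2)) / (2 * h0) =
      ρ * (-om + D) / 2 := by
    rw [hA3, h1, h2, hD, hom]
    field_simp
    ring
  have w3 : (-A1 * (h0 - l1 - 2 * l2) - A2 * (h0 - l2) + A3 * (h0 - l1 - l2)) / (2 * h0) =
      ρ * (-om - D) / 2 := by
    rw [hA3, h1, h2, hD, hom]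
    field_simp
    ring
  obtain ⟨W2, hW2⟩ : ∃ W2, W2 = (-A1 * (h0 - l1) + A2 * (h0 - l2) +
    A3 * (l1 - l2) / (l1 + l2) * (h0 - l1 - l2)) / (2 * h0) := ⟨_, rfl⟩
  have w2 : 0 < ρ → W2 = om * (1 - ρ / 2) - ρ * D * (a - (1 - a)) / 2 := by
    intro h
    have hq : A3 * (l1 - l2) / (l1 + l2) = A3 * (a - (1 - a)) := by
      have e1 : l1 + l2 = ρ * h0 := by
        rw [h1, h2]
        ring
      rw [e1, h1, h2]
      field_simp
    rw [hW2, hq, hA3, h1, h2, hD, hom]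
    field_simp
    ring
  have e3 : h0 - l1 - l2 = (1 - ρ) * h0 := by
    rw [h1, h2]
    ring
  unfold MoN
  rw [w1, w3, ← hW2, e3]
  have hmx : ∀ V : ℝ, 0 ≤ max V 0 := fun V => le_max_right _ _
  rcases le_total 0 D with hs0 | hs0
  · refine ⟨ρ * (-om + D) / 2 - x * (ρ * D), ?_⟩
    have g1 : ρ * (-om + D) / 2 - (ρ * (-om + D) / 2 - x * (ρ * D)) = x * (ρ * D) := by ring
    have g3 : ρ * (-om - D) / 2 - (ρ * (-om + D) / 2 - x * (ρ * D)) =
        -((1 - x) * (ρ * D)) := by ring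
    rw [g1, g3, phi_opp hx hx1 (mul_nonneg hρ hs0)]
    have f12 := phi_le_half (x * (ρ * D)) (W2 - (ρ * (-om + D) / 2 - x * (ρ * D)))
    have f23 := phi_le_half (W2 - (ρ * (-om + D) / 2 - x * (ρ * D))) (-((1 - x) * (ρ * D)))
    have i1 : max (x * (ρ * D)) 0 = x * (ρ * D) := max_eq_left (by positivity)
    have i3 : max (-((1 - x) * (ρ * D))) 0 = 0 := max_eq_right (by
      have := mul_nonneg (by linarith : 0 ≤ 1 - x) (mul_nonneg hρ hs0)
      linarith)
    rw [i1] at f12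
    rw [i3] at f23
    have key := cone_aux (F := (ρ * a * Line.phi (x * (ρ * D)) (W2 - (ρ * (-om + D) / 2 - x * (ρ * D))) +
      ρ * (1 - a) * Line.phi (W2 - (ρ * (-om + D) / 2 - x * (ρ * D))) (-((1 - x) * (ρ * D))) +
      (1 - ρ) * (x ^ 2 * (ρ * D) / 2) + (ρ * (-om + D) / 2 - x * (ρ * D)) * x)) hK hρ H.ip H.jp ?_
    · refine le_trans (le_of_eq ?_) (key.trans he)
      rw [h1, h2, hs]
      ring
    · rcases hρ.eq_or_lt with h | h
      · rw [← h]
        simp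
      · have g2 : W2 - (ρ * (-om + D) / 2 - x * (ρ * D)) = om - ρ * D * (a - x) := by
          rw [w2 h]
          ring
        rw [g2] at f12 f23 ⊢
        have j1 := mul_le_mul_of_nonneg_left f12 (mul_nonneg hρ ha)
        have j2 := mul_le_mul_of_nonneg_left f23 (mul_nonneg hρ (by linarith : 0 ≤ 1 - a))
        refine (add_le_add_left (add_le_add_left (add_le_add j1 j2) _) _).trans (le_of_eq ?_)
        ring
  · refine ⟨ρ * (-om - D) / 2 - x * (ρ * -D), ?_⟩
    have hs1 : 0 ≤ -D := by linarith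
    have g3 : ρ * (-om - D) / 2 - (ρ * (-om - D) / 2 - x * (ρ * -D)) = x * (ρ * -D) := by ring
    have g1 : ρ * (-om + D) / 2 - (ρ * (-om - D) / 2 - x * (ρ * -D)) =
        -((1 - x) * (ρ * -D)) := by ring
    rw [g1, g3, phi_comm (x * (ρ * -D)) (-((1 - x) * (ρ * -D))),
      phi_opp hx hx1 (mul_nonneg hρ hs1)]
    have f12 := phi_le_half (-((1 - x) * (ρ * -D))) (W2 - (ρ * (-om - D) / 2 - x * (ρ * -D)))
    have f23 := phi_le_half (W2 - (ρ * (-om - D) / 2 - x * (ρ * -D))) (x * (ρ * -D))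
    have i3 : max (x * (ρ * -D)) 0 = x * (ρ * -D) := max_eq_left (by positivity)
    have i1 : max (-((1 - x) * (ρ * -D))) 0 = 0 := max_eq_right (by
      have := mul_nonneg (by linarith : 0 ≤ 1 - x) (mul_nonneg hρ hs1)
      linarith)
    rw [i1] at f12
    rw [i3] at f23
    have key := cone_aux (x := x) (om := om) (e := e) (a := 1 - a) (D := -D) (F := (ρ * a *
      Line.phi (-((1 - x) * (ρ * -D))) (W2 - (ρ * (-om - D) / 2 - x * (ρ * -D))) +
      ρ * (1 - a) * Line.phi (W2 - (ρ * (-om - D) / 2 - x * (ρ * -D))) (x * (ρ * -D)) +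
      (1 - ρ) * (x ^ 2 * (ρ * -D) / 2) + (ρ * (-om - D) / 2 - x * (ρ * -D)) * x)) hK hρ
      (by have := H.im; linarith) (by have := H.jm; linarith) ?_
    · refine le_trans (le_of_eq ?_) (key.trans he)
      rw [h1, h2, hs]
      ring
    · rcases hρ.eq_or_lt with h | h
      · rw [← h]
        simp
      · have g2 : W2 - (ρ * (-om - D) / 2 - x * (ρ * -D)) = om - ρ * -D * (1 - a - x) := by
          rw [w2 h]
          ring
        rw [g2] at f12 f23 ⊢
        have j1 := mul_le_mul_of_nonneg_left f12 (mul_nonneg hρ ha)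
        have j2 := mul_le_mul_of_nonneg_left f23 (mul_nonneg hρ (by linarith : 0 ≤ 1 - a))
        refine (add_le_add_left (add_le_add_left (add_le_add j1 j2) _) _).trans (le_of_eq ?_)
        ring

end Pool.Agent.Strip051.LC.XC
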